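import Mathlib
import Pool.Agent.Helper278.Defs
import Pool.Agent.Helper278.Lift
import Pool.Agent.Helper278.Model

set_option autoImplicit false

open scoped BoundedContinuousFunction

namespace Pool.Agent.Results.MP_81d1ca_an.Diffuse

open Pool.Agent.Helper278

universe u

variable {H : Type u} [NormedAddCommGroup H] [InnerProductSpace ℂ H] [CompleteSpace H]

/-- Sanity check: the tracial ultrapower quantified over below always exists. -/
theorem ultrapower_exists (N : VonNeumannAlgebra H) (τ : Elt N → ℂ) (h1 : IsNormalPositive N τ)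
    (h2 : IsFaithfulTrace τ) (U : Ultrafilter ℕ) :
    ∃ (Q : Type u) (_ : Ring Q) (_ : StarRing Q) (_ : Algebra ℂ Q) (_ : StarModule ℂ Q)
      (π : (ℕ →ᵇ Elt N) →⋆ₐ[ℂ] Q) (σ : Q → ℂ), IsTracialUltrapower τ U π σ :=
  exists_ultrapower (mkState N τ h1 h2) U

/-- Independent unitaries of the tracial ultrapower of a diffuse tracial von Neumann algebra have
independent unitary lifts. -/
theorem result (N : VonNeumannAlgebra H) (τ : Elt N → ℂ) (h1 : IsNormalPositive N τ)
    (h2 : IsFaithfulTrace τ) (h3 : IsDiffuse N) : LiftsIndependentPairs (Elt N) τ :=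
  lifts_of_lyap (mkState N τ h1 h2) (lyapProp (mkState N τ h1 h2) h3)

end Pool.Agent.Results.MP_81d1ca_an.Diffuse
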